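import Pool.Agent.Run7.h479.XX.Cls
import Pool.Agent.Run7.h479.XX.Unit

/-!
# The main conjecture given one divisibility: one limit over the numbers of points decides

In the notation of the problem let `E/ℚ` be an elliptic curve, `p` a prime of good ordinary reduction, and for the
primes `ℓ` let `β_{ℓ,1}, β_{ℓ,2}` be the numbers with `#E(𝔽_q) = q + 1 - β_{ℓ,1}^k - β_{ℓ,2}^k`, `q = ℓ^k`, `ℓ` of good
reduction. For a character `χ` of `Γ` of conductor `p^n`, `γ > π/2` and `T > 0` put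

`S_χ(T) = ∑_ℓ ∑_{k ≥ 1} χ̄(ℓ)^k (β_{ℓ,1}^k + β_{ℓ,2}^k) / (k ℓ^k) · exp(iγ k log ℓ / T) / Γ(1 + k log ℓ / T)`.

The series converges absolutely, and `exp(S_χ(T)) → L(E, χ̄, 1)` for `T → ∞`, also if this value is `0`. No
hypothesis on zeros is used. Fix embeddings `ι`, `j` of a field of algebraic numbers into `ℂ` and `ℂ_p`, and let
`e_χ` be the factor of the interpolation formula, so that `𝓛_p(χ) = e_χ j(w)` for the algebraic number `w` with
`ι(w) Ω_E = L(E, χ̄, 1)`. Then: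

* A bounded power series `f` over `ℚ_p` is the `p`-adic L-function `𝓛_p` if and only if for infinitely many `χ`
  there is an algebraic number `x` with `f(χ) = e_χ j(x)` and `exp(S_χ(T)) → ι(x) Ω_E`.
* For an ideal `I` of `Λ`, for example `char_Λ X(E/ℚ_∞)`: `𝓛_p ∈ Λ` and `I = (𝓛_p)` if and only if a generator of `I`
  has this property.
* If `I = (g)` and `g` divides `𝓛_p` in `Λ` (the theorem of Kato for `I = char_Λ X`, in many cases), then `I = (𝓛_p)` if and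
  only if `|g(χ)|_p = |e_χ j(x)|_p` for ONE character `χ` with `exp(S_χ(T)) → ι(x) Ω_E`, `x ≠ 0`; and then it holds for
  all of them. For `χ = 1` and `L(E, 1) ≠ 0` this is `|g(0)|_p = |(1 - α_p⁻¹)² j(x)|_p` with
  `ι(x) = lim exp(S_1(T)) / Ω_E`.

So given one divisibility the main conjecture for `(E, p)` is a statement on one limit over the numbers of points
of `E` over finite fields.

The law for Euler products with complex coefficients at an arbitrary real point is due to helper453 (library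
`Pool.Agent.Run7.h453.CX`, used in `MP_46b841_nt.ChebotarevAtZero`). That one character suffices given the
divisibility is well known.
-/

set_option autoImplicit false

open Filter Topology Set Run7.h479.XX Run7.h479.XX.Bounded

namespace Pool.Agent.Results.MP_6b77c8_nt.OneLimitDecides

/-- The number of the points of the projective curve with the Weierstrass equation `E` over the field `κ`
(including a singular point, if there is one). -/
noncomputable def points (E : WeierstrassCurve ℤ) (κ : Type) [Field κ] : ℕ :=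
  1 + Nat.card {u : κ × κ // (E.map (Int.castRingHom κ)).toAffine.Equation u.1 u.2}

/-- The numbers `β_{ℓ,1}, β_{ℓ,2}`: of absolute value at most `√ℓ`, and for `ℓ` outside the finite set `S` given by the
numbers of points over the finite fields of characteristic `ℓ`. -/
structure Frobenius (E : WeierstrassCurve ℤ) (S : Finset Nat.Primes) (β : Nat.Primes → Fin 2 → ℂ) :
    Prop where
  good : ∀ ℓ ∉ S, ∀ (κ : Type) [Field κ] [Finite κ] (k : ℕ), Nat.card κ = (ℓ : ℕ) ^ k →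
    (points E κ : ℂ) = ((ℓ : ℕ) : ℂ) ^ k + 1 - (β ℓ 0 ^ k + β ℓ 1 ^ k)
  norm : ∀ ℓ j, ‖β ℓ j‖ ≤ √(ℓ : ℕ)

/-- `L(s) = L(E, χ, s)`: the Euler product for `Re s > 3/2`, analytic at the points of the real interval
`[1, 3/2]`. -/
structure IsTwist {N : ℕ} (β : Nat.Primes → Fin 2 → ℂ) (χ : DirichletCharacter ℂ N) (L : ℂ → ℂ) :
    Prop where
  euler : ∀ s : ℂ, 3 / 2 < s.re → L s = ∏' ℓ : Nat.Primes, ∏ j,
    (1 - χ (ℓ : ℕ) * β ℓ j * ((ℓ : ℕ) : ℂ) ^ (-s))⁻¹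
  analytic : ∀ x : ℝ, 1 ≤ x → x ≤ 3 / 2 → AnalyticAt ℂ L (x : ℂ)

/-- The weight `exp(iγ t / T) / Γ(1 + t / T)`. -/
noncomputable def weight (γ T t : ℝ) : ℂ :=
  Complex.exp ((γ * (t / T) : ℝ) * Complex.I) * ((Real.Gamma (1 + t / T))⁻¹ : ℝ)

/-- The term of `S_χ(T)` for `ℓ = x.1` and `k = x.2`. -/
noncomputable def term {N : ℕ} (β : Nat.Primes → Fin 2 → ℂ) (χ : DirichletCharacter ℂ N) (γ T : ℝ)
    (x : Nat.Primes × ℕ+) : ℂ :=
  χ (x.1 : ℕ) ^ (x.2 : ℕ) * (β x.1 0 ^ (x.2 : ℕ) + β x.1 1 ^ (x.2 : ℕ)) /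
    (((x.2 : ℕ) : ℂ) * ((x.1 : ℕ) : ℂ) ^ (x.2 : ℕ)) * weight γ T ((x.2 : ℕ) * Real.log (x.1 : ℕ))

/-- `S_χ(T)` -/
noncomputable def sum {N : ℕ} (β : Nat.Primes → Fin 2 → ℂ) (χ : DirichletCharacter ℂ N) (γ T : ℝ) :
    ℂ := ∑' x, term β χ γ T x

section proof

variable {E : WeierstrassCurve ℤ} {S : Finset Nat.Primes} {β : Nat.Primes → Fin 2 → ℂ} {N : ℕ}
  {χ : DirichletCharacter ℂ N} {L : ℂ → ℂ}

theorem term_eq (γ T : ℝ) (x : Nat.Primes × ℕ+) :
    Pool.Agent.Run7.h453.CX.eterm (fun ℓ : Nat.Primes => ((ℓ : ℕ) : ℝ))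
      (fun ℓ (k : ℕ+) => ∑ j, (χ (ℓ : ℕ) * β ℓ j) ^ (k : ℕ)) 1 γ T x = term β χ γ T x := by
  have hn : (0 : ℝ) < ((x.1 : ℕ) : ℝ) := by exact_mod_cast x.1.2.pos
  have e1 : Real.exp (-(1 * (((x.2 : ℕ) : ℝ) * Real.log (x.1 : ℕ)))) =
      (((x.1 : ℕ) : ℝ) ^ (x.2 : ℕ))⁻¹ := by
    rw [← Real.rpow_natCast, ← Real.rpow_neg hn.le, Real.rpow_def_of_pos hn]
    congr 1
    ring
  unfold term Pool.Agent.Run7.h453.CX.eterm Pool.Agent.Run7.h453.CX.rterm
    Pool.Agent.Run7.h453.CX.cEs Pool.Agent.Run7.h453.CX.cE Pool.Agent.Run7.h453.CX.lamE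
    Pool.Agent.W189.ML.om weight
  rw [e1]
  simp only [Fin.sum_univ_two]
  push_cast
  rw [mul_pow, mul_pow, ← mul_add, div_mul_eq_div_div]
  ring

theorem Frobenius.norm' (h : Frobenius E S β) (ℓ : Nat.Primes) (j : Fin 2) :
    ‖χ (ℓ : ℕ) * β ℓ j‖ ≤ ((ℓ : ℕ) : ℝ) ^ (1 / 2 : ℝ) := by
  rw [← Real.sqrt_eq_rpow, norm_mul]
  calc ‖χ (ℓ : ℕ)‖ * ‖β ℓ j‖ ≤ 1 * √(ℓ : ℕ) :=
        mul_le_mul (χ.norm_le_one _) (h.norm ℓ j) (norm_nonneg _) zero_le_one
    _ = _ := one_mul _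

theorem two_le (ℓ : Nat.Primes) : (2 : ℝ) ≤ ((ℓ : ℕ) : ℝ) := by exact_mod_cast ℓ.2.two_le

theorem summable_primes (σ : ℝ) (hσ : 1 < σ) : Summable fun ℓ : Nat.Primes => ((ℓ : ℕ) : ℝ) ^ (-σ) :=
  (Nat.Primes.summable_rpow (r := -σ)).2 (by linarith)

theorem term_summable (h : Frobenius E S β) (χ : DirichletCharacter ℂ N) (γ : ℝ) {T : ℝ}
    (hT : 0 < T) : Summable fun x => ‖term β χ γ T x‖ := by
  have E' := Pool.Agent.Run7.h453.CX.ed_of (N := 2) (κ := 1 / 2)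
    (q := fun ℓ : Nat.Primes => ((ℓ : ℕ) : ℝ)) (a := fun ℓ j => χ (ℓ : ℕ) * β ℓ j) two_le
    summable_primes (fun ℓ j => h.norm' ℓ j)
  exact (E'.eterm_summable 1 γ hT).congr fun x => by rw [term_eq]

theorem sum_lim (h : Frobenius E S β) (hL : IsTwist β χ L) {γ : ℝ} (hγ : Real.pi / 2 < γ) :
    Tendsto (fun T : ℝ => Complex.exp (sum β χ γ T)) atTop (𝓝 (L 1)) := by
  have han := (hL.analytic 1 le_rfl (by norm_num)).continuousAt
  rw [Complex.ofReal_one] at han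
  have h1 := law_lim (N := 2) (q := fun ℓ : Nat.Primes => ((ℓ : ℕ) : ℝ))
    (a := fun ℓ j => χ (ℓ : ℕ) * β ℓ j) (κ := 1 / 2) (σ₀ := 1) (F := L) two_le summable_primes
    (fun ℓ j => h.norm' ℓ j) (fun x hx hx' => (hL.analytic x hx (by linarith)).meromorphicAt)
    (by norm_num) (fun s hs => by
      rw [hL.euler s (by norm_num at hs ⊢; exact hs)]
      simp) (r := 0) (A := L 1) (by
        simpa using han.tendsto.mono_left nhdsWithin_le_nhds) hγ
  simp only [pow_zero, one_mul, Nat.cast_zero, zero_mul, Complex.exp_zero] at h1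
  refine h1.congr fun T => ?_
  congr 1
  exact tsum_congr fun x => term_eq γ T x

end proof

variable {p : ℕ} [Fact p.Prime] {C : Type} [NormedField C] [NormedAlgebra ℚ_[p] C] [CompleteSpace C]
  [IsUltrametricDist C]

/-- **Theorem.** Let `χ_i` be characters of conductor `p ^ n_i`, `L_i(s) = L(E, χ_i, s)`, `z_i` points of the open
unit disc of `C` (`= ℂ_p`) with `|z_i| → 1`, `e_i ∈ C`, `w_i ∈ A` (a field with embeddings `ι` into `ℂ` and `j`
into `C`) with `ι(w_i) Ω = L_i(1)`, and `𝓛` a power series over `ℚ_p` with bounded coefficients and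
`𝓛(z_i) = e_i j(w_i)` for all `i` (in Q1 `χ_i = χ̄`, `z_i = χ(γ) - 1`). Let `γ > π/2`.

* `S_{χ_i}(T)` converges absolutely and `exp(S_{χ_i}(T)) → ι(w_i) Ω`.
* `f = 𝓛` for a bounded `f` iff for infinitely many `i` there is an `x ∈ A` with `f(z_i) = e_i j(x)` and
  `exp(S_{χ_i}(T)) → ι(x) Ω`.
* For an ideal `I` of `ℤ_p[[X]]`: `𝓛` has coefficients in `ℤ_p` and generates `I` iff `I` has a generator with this
  property.
* If `F` has the coefficients of `𝓛`, `g ∣ F` and `exp(S_{χ_i}(T)) → ι(x) Ω` for one `i` with `e_i ≠ 0` and an `x ≠ 0`,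
  then `(g) = (F)` iff `|g(z_i)| = |e_i j(x)|`. -/
theorem result (E : WeierstrassCurve ℤ) (S : Finset Nat.Primes) (β : Nat.Primes → Fin 2 → ℂ)
    (hβ : Frobenius E S β) (n : ℕ → ℕ) (χ : ∀ i, DirichletCharacter ℂ (p ^ n i))
    (L : ℕ → ℂ → ℂ) (hL : ∀ i, IsTwist β (χ i) (L i)) (Ω : ℂ) (hΩ : Ω ≠ 0)
    {A : Type} [Field A] (ι : A →+* ℂ) (j : A →+* C) (z e : ℕ → C) (hz : ∀ i, ‖z i‖ < 1)
    (hz1 : Tendsto (fun i => ‖z i‖) atTop (𝓝 1)) (w : ℕ → A) (hw : ∀ i, ι (w i) * Ω = L i 1)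
    (𝓛 : ℕ → ℚ_[p]) (B : ℝ) (hB : ∀ n, ‖𝓛 n‖ ≤ B) (hint : ∀ i, ev 𝓛 (z i) = e i * j (w i))
    (γ : ℝ) (hγ : Real.pi / 2 < γ) :
    (∀ i, (∀ T : ℝ, 0 < T → Summable fun x => ‖term β (χ i) γ T x‖) ∧
      Tendsto (fun T : ℝ => Complex.exp (sum β (χ i) γ T)) atTop (𝓝 (ι (w i) * Ω))) ∧
    (∀ (f : ℕ → ℚ_[p]) (B' : ℝ), (∀ n, ‖f n‖ ≤ B') → (f = 𝓛 ↔ ∃ᶠ i in atTop, ∃ x : A,
      ev f (z i) = e i * j x ∧
      Tendsto (fun T : ℝ => Complex.exp (sum β (χ i) γ T)) atTop (𝓝 (ι x * Ω)))) ∧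
    (∀ I : Ideal (PowerSeries ℤ_[p]), (∃ F, co F = 𝓛 ∧ I = Ideal.span {F}) ↔
      ∃ F, I = Ideal.span {F} ∧ ∃ᶠ i in atTop, ∃ x : A, ev (co F) (z i) = e i * j x ∧
        Tendsto (fun T : ℝ => Complex.exp (sum β (χ i) γ T)) atTop (𝓝 (ι x * Ω))) ∧
    (∀ F g : PowerSeries ℤ_[p], co F = 𝓛 → g ∣ F → ∀ (i : ℕ) (x : A), x ≠ 0 → e i ≠ 0 →
      Tendsto (fun T : ℝ => Complex.exp (sum β (χ i) γ T)) atTop (𝓝 (ι x * Ω)) →
      (Ideal.span {g} = Ideal.span {F} ↔ ‖ev (co g) (z i)‖ = ‖e i * j x‖)) := by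
  have hlim : ∀ i, Tendsto (fun T : ℝ => Complex.exp (sum β (χ i) γ T)) atTop (𝓝 (ι (w i) * Ω)) :=
    fun i => by
      rw [hw]
      exact sum_lim hβ (hL i) hγ
  have huniq : ∀ (i : ℕ) (x : A),
      Tendsto (fun T : ℝ => Complex.exp (sum β (χ i) γ T)) atTop (𝓝 (ι x * Ω)) → x = w i :=
    fun i x hx => ι.injective (mul_right_cancel₀ hΩ (tendsto_nhds_unique hx (hlim i)))
  have h2 : ∀ (f : ℕ → ℚ_[p]) (B' : ℝ), (∀ n, ‖f n‖ ≤ B') → (f = 𝓛 ↔ ∃ᶠ i in atTop, ∃ x : A,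
      ev f (z i) = e i * j x ∧
      Tendsto (fun T : ℝ => Complex.exp (sum β (χ i) γ T)) atTop (𝓝 (ι x * Ω))) := by
    intro f B' hB'
    constructor
    · rintro rfl
      exact Frequently.of_forall fun i => ⟨w i, hint i, hlim i⟩
    · intro h3
      refine eq_of_frequently hB' hB hz hz1 (h3.mono ?_)
      rintro i ⟨x, hx1, hx2⟩
      rw [hx1, huniq i x hx2, hint i]
  refine ⟨fun i => ⟨fun T hT => term_summable hβ (χ i) γ hT, hlim i⟩, h2, fun I => ⟨?_, ?_⟩, ?_⟩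
  · rintro ⟨F, hF, rfl⟩
    exact ⟨F, rfl, (h2 (co F) 1 (co_le F)).1 hF⟩
  · rintro ⟨F, hI, hF⟩
    exact ⟨F, (h2 (co F) 1 (co_le F)).2 hF, hI⟩
  · rintro F g hF ⟨h, rfl⟩ i x hx he hlimx
    have hxw := huniq i x hlimx
    have h3 : ev (co (g * h)) (z i) = e i * j x := by rw [hF, hint i, hxw]
    rw [ev_mul g h (hz i)] at h3
    have h4 : e i * j x ≠ 0 := mul_ne_zero he ((map_ne_zero j).2 hx)
    have hg0 : ev (co g) (z i) ≠ 0 := by
      intro h5
      rw [h5, zero_mul] at h3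
      exact h4 h3.symm
    have hg : g ≠ 0 := by
      rintro rfl
      refine hg0 ?_
      unfold ev co
      simp
    have h5 : Ideal.span {g} = Ideal.span {g * h} ↔ IsUnit h := by
      rw [Ideal.span_singleton_eq_span_singleton]
      constructor
      · rintro ⟨u, hu⟩
        have : (u : PowerSeries ℤ_[p]) = h := mul_left_cancel₀ hg hu
        rw [← this]
        exact u.isUnit
      · rintro ⟨u, rfl⟩
        exact ⟨u, rfl⟩
    rw [h5, isUnit_iff h (hz i), ← h3, norm_mul]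
    have hg1 : 0 < ‖ev (co g) (z i)‖ := norm_pos_iff.2 hg0
    constructor
    · intro h6
      rw [h6, mul_one]
    · intro h6
      have h7 : ‖ev (co g) (z i)‖ * (‖ev (co h) (z i)‖ - 1) = 0 := by linarith
      rcases mul_eq_zero.1 h7 with h8 | h8
      · exact absurd h8 hg1.ne'
      · linarith

end Pool.Agent.Results.MP_6b77c8_nt.OneLimitDecides
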